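import Pool.Agent.H3.AM.Basic

/-!
# Fixed points of `ℓ`-groups and the Brauer map (module C1 of MP_657073_al)
-/

open scoped Classical ComplexConjugate

namespace AMc

/-- vector valued version of `c1`: the sum over the points which are not fixed vanishes -/
theorem sum_nonfixed {F : Type} [Field F] (ℓ : ℕ) [Fact ℓ.Prime] [CharP F ℓ]
    {V : Type*} [AddCommGroup V] [Module F V]
    (T Ω : Type) [Group T] [Finite T] [MulAction T Ω] [Fintype Ω] (hT : IsPGroup ℓ T)
    (f : Ω → V) (hf : ∀ (t : T) (ω : Ω), f (t • ω) = f ω) :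
    ∑ ω : Ω, (if (∀ t : T, t • ω = ω) then 0 else f ω) = 0 := by
  rw [← Finset.sum_fiberwise Finset.univ
    (fun ω : Ω => (Quotient.mk (MulAction.orbitRel T Ω) ω))]
  refine Finset.sum_eq_zero fun j _ => ?_
  obtain ⟨ω₀, rfl⟩ := Quotient.exists_rep j
  have hset : ∀ ω : Ω, Quotient.mk (MulAction.orbitRel T Ω) ω =
      Quotient.mk (MulAction.orbitRel T Ω) ω₀ ↔ ω ∈ MulAction.orbit T ω₀ := by
    intro ω
    rw [Quotient.eq]
    exact MulAction.orbitRel_apply
  by_cases hfix : ∀ t : T, t • ω₀ = ω₀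
  · refine Finset.sum_eq_zero fun ω hω => ?_
    rw [Finset.mem_filter] at hω
    obtain ⟨t, ht⟩ := (hset ω).1 hω.2
    have h1 : ω = ω₀ := by rw [← ht]; exact hfix t
    rw [if_pos (h1 ▸ hfix)]
  · have hval : ∀ ω ∈ Finset.univ.filter (fun ω : Ω => Quotient.mk (MulAction.orbitRel T Ω) ω =
        Quotient.mk (MulAction.orbitRel T Ω) ω₀),
        (if (∀ t : T, t • ω = ω) then 0 else f ω) = f ω₀ := by
      intro ω hω
      rw [Finset.mem_filter] at hω
      obtain ⟨t, ht⟩ := (hset ω).1 hω.2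
      have ht' : t • ω₀ = ω := ht
      rw [if_neg, ← ht', hf]
      intro h
      apply hfix
      intro t'
      have h2 : t⁻¹ • ω = ω := h t⁻¹
      have h3 : ω₀ = ω := by rw [← h2, ← ht', inv_smul_smul]
      rw [h3]
      exact h t'
    rw [Finset.sum_congr rfl hval, Finset.sum_const]
    obtain ⟨n, hn⟩ := hT.card_orbit ω₀
    have hcard : (Finset.univ.filter (fun ω : Ω => Quotient.mk (MulAction.orbitRel T Ω) ω =
        Quotient.mk (MulAction.orbitRel T Ω) ω₀)).card = ℓ ^ n := by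
      rw [← hn, Nat.card_eq_fintype_card, ← Set.toFinset_card]
      congr 1
      ext ω
      rw [Finset.mem_filter, Set.mem_toFinset]
      simp only [Finset.mem_univ, true_and]
      exact hset ω
    rw [hcard]
    rcases Nat.eq_zero_or_pos n with rfl | hpos
    · exfalso
      apply hfix
      intro t
      rw [pow_zero] at hn
      have hsub : Subsingleton (MulAction.orbit T ω₀) := by
        rw [← Finite.card_le_one_iff_subsingleton]; exact hn.le
      exact congrArg Subtype.val (hsub.elim (⟨t • ω₀, MulAction.mem_orbit ω₀ t⟩)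
        (⟨ω₀, MulAction.mem_orbit_self ω₀⟩))
    · have hz : ((ℓ ^ n : ℕ) : F) = 0 := by
        rw [Nat.cast_pow, CharP.cast_eq_zero, zero_pow hpos.ne']
      rw [← Nat.cast_smul_eq_nsmul F, hz, zero_smul]

theorem fixed_sum {F : Type} [Field F] (ℓ : ℕ) [Fact ℓ.Prime] [CharP F ℓ]
    {V : Type*} [AddCommGroup V] [Module F V]
    (T Ω : Type) [Group T] [Finite T] [MulAction T Ω] [Fintype Ω] (hT : IsPGroup ℓ T)
    (f : Ω → V) (hf : ∀ (t : T) (ω : Ω), f (t • ω) = f ω) :
    ∑ ω, f ω = ∑ ω : Ω, if (∀ t : T, t • ω = ω) then f ω else 0 := by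
  have h := sum_nonfixed (F := F) ℓ T Ω hT f hf
  have h2 : ∑ ω, f ω = (∑ ω : Ω, if (∀ t : T, t • ω = ω) then 0 else f ω) +
      ∑ ω : Ω, if (∀ t : T, t • ω = ω) then f ω else 0 := by
    rw [← Finset.sum_add_distrib]
    refine Finset.sum_congr rfl fun ω _ => ?_
    split_ifs
    · rw [zero_add]
    · rw [add_zero]
  rw [h2, h, zero_add]

theorem c1 : T_C1 := by
  intro F _ ℓ _ _ T Ω _ _ _ _ hT f hf
  exact fixed_sum (F := F) ℓ T Ω hT f hf

/-- `c1` for the conjugation action of an `ℓ`-subgroup -/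
theorem conj_sum {F : Type} [Field F] (ℓ : ℕ) [Fact ℓ.Prime] [CharP F ℓ]
    {V : Type*} [AddCommGroup V] [Module F V] {Γ : Type} [Group Γ] [Fintype Γ]
    (R : Subgroup Γ) (hR : IsPGroup ℓ R) (f : Γ → V)
    (hf : ∀ r ∈ R, ∀ a, f (r * a * r⁻¹) = f a) :
    ∑ a, f a = ∑ a : Γ, if a ∈ Subgroup.centralizer (R : Set Γ) then f a else 0 := by
  let act : MulAction R Γ :=
    { smul := fun r a => (r : Γ) * a * (r : Γ)⁻¹
      one_smul := by
        intro a
        show ((1 : R) : Γ) * a * ((1 : R) : Γ)⁻¹ = a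
        simp
      mul_smul := by
        intro r r' a
        show ((r * r' : R) : Γ) * a * ((r * r' : R) : Γ)⁻¹ = r * (r' * a * (r' : Γ)⁻¹) * (r : Γ)⁻¹
        push_cast
        group }
  have h := @fixed_sum F _ ℓ _ _ V _ _ R Γ _ _ act _ hR f (fun t ω => hf t t.2 ω)
  rw [h]
  refine Finset.sum_congr rfl fun a _ => ?_
  have : (∀ t : R, act.toSMul.smul t a = a) ↔ a ∈ Subgroup.centralizer (R : Set Γ) := by
    rw [Subgroup.mem_centralizer_iff]
    constructor
    · intro h r hr
      have h1 : r * a * r⁻¹ = a := h ⟨r, hr⟩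
      have h2 : r * a = (r * a * r⁻¹) * r := by group
      rw [h2, h1]
    · intro h t
      show (t : Γ) * a * (t : Γ)⁻¹ = a
      rw [h t t.2]; group
  by_cases ha : a ∈ Subgroup.centralizer (R : Set Γ)
  · rw [if_pos ha]
    exact if_pos (this.2 ha)
  · rw [if_neg ha]
    exact if_neg (fun hh => ha (this.1 hh))

theorem mem_centralizer_conj {Γ : Type} [Group Γ] {R : Subgroup Γ} {g r : Γ}
    (hg : g ∈ Subgroup.centralizer (R : Set Γ)) (hr : r ∈ R) : r * g * r⁻¹ = g := by
  rw [Subgroup.mem_centralizer_iff] at hg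
  rw [hg r hr]; group

theorem c2 : T_C2 := by
  intro F _ ℓ _ _ Γ _ _ N 𝒟 z hz w hw hsup g hg
  have hgN : g ∈ N := by
    by_contra h
    exact hg (((ZA F N N).mul_mem hz hw).1 g h)
  refine ⟨hgN, fun R hR hRN hRc => ?_⟩
  rw [coeff_mul_group] at hg
  rw [conj_sum (F := F) ℓ R hR (fun a => z.coeff a * w.coeff (a⁻¹ * g)) ?_] at hg
  · obtain ⟨a, _, ha⟩ := Finset.exists_ne_zero_of_sum_ne_zero hg
    have hac : a ∈ Subgroup.centralizer (R : Set Γ) := by
      by_contra h
      rw [if_neg h] at ha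
      exact ha rfl
    rw [if_pos hac] at ha
    have hza : z.coeff a ≠ 0 := left_ne_zero_of_mul ha
    refine (hsup a hza).2 R hR hRN ?_
    intro r hr
    rw [Subgroup.mem_centralizer_singleton_iff]
    exact (Subgroup.mem_centralizer_iff.1 hac r hr)
  · intro r hr a
    have h1 : r * g = g * r := Subgroup.mem_centralizer_singleton_iff.1 (hRc hr)
    have h2 : (r * a * r⁻¹)⁻¹ * g = r * (a⁻¹ * g) * r⁻¹ := by
      have : r⁻¹ * g = g * r⁻¹ := by
        rw [inv_mul_eq_iff_eq_mul, ← mul_assoc, h1]; group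
      calc (r * a * r⁻¹)⁻¹ * g = r * a⁻¹ * (r⁻¹ * g) := by group
        _ = _ := by rw [this]; group
    show z.coeff (r * a * r⁻¹) * w.coeff ((r * a * r⁻¹)⁻¹ * g) = _
    rw [h2, hz.2 r (hRN hr), hw.2 r (hRN hr)]

theorem d1 : T_D1 := by
  intro F _ ℓ _ _ Γ _ _ P hP z hz w hw
  apply MonoidAlgebra.ext
  ext g
  rw [coeff_br, coeff_mul_group, coeff_mul_group]
  by_cases hg : g ∈ Subgroup.centralizer (P : Set Γ)
  · rw [if_pos hg, conj_sum (F := F) ℓ P hP (fun a => z.coeff a * w.coeff (a⁻¹ * g)) ?_]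
    · refine Finset.sum_congr rfl fun a _ => ?_
      rw [coeff_br, coeff_br]
      by_cases ha : a ∈ Subgroup.centralizer (P : Set Γ)
      · rw [if_pos ha, if_pos ha, if_pos (Subgroup.mul_mem _ (Subgroup.inv_mem _ ha) hg)]
      · rw [if_neg ha, if_neg ha, zero_mul]
    · intro r hr a
      have h1 : r * g = g * r := Subgroup.mem_centralizer_iff.1 hg r hr
      have h2 : (r * a * r⁻¹)⁻¹ * g = r * (a⁻¹ * g) * r⁻¹ := by
        have : r⁻¹ * g = g * r⁻¹ := by
          rw [inv_mul_eq_iff_eq_mul, ← mul_assoc, h1]; group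
        calc (r * a * r⁻¹)⁻¹ * g = r * a⁻¹ * (r⁻¹ * g) := by group
          _ = _ := by rw [this]; group
      show z.coeff (r * a * r⁻¹) * w.coeff ((r * a * r⁻¹)⁻¹ * g) = _
      rw [h2, hz.2 r hr, hw.2 r hr]
  · rw [if_neg hg]
    symm
    refine Finset.sum_eq_zero fun a _ => ?_
    rw [coeff_br, coeff_br]
    by_cases ha : a ∈ Subgroup.centralizer (P : Set Γ)
    · rw [if_neg (c := a⁻¹ * g ∈ _), mul_zero]
      intro h
      apply hg
      have := Subgroup.mul_mem _ ha h
      rwa [mul_inv_cancel_left] at this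
    · rw [if_neg ha, zero_mul]

theorem centralizer_le_normalizer' {Γ : Type} [Group Γ] (P : Subgroup Γ) :
    Subgroup.centralizer (P : Set Γ) ≤ Subgroup.normalizer (P : Set Γ) := by
  intro g hg
  rw [Subgroup.mem_normalizer_iff]
  intro h
  have hc := Subgroup.mem_centralizer_iff.1 hg
  constructor
  · intro hh
    have h1 := hc h hh
    have h2 : g * h * g⁻¹ = h := by rw [← h1]; group
    rw [h2]; exact hh
  · intro hh
    have h1 := hc _ hh
    have h2 : h = g * h * g⁻¹ := by
      have h3 : g * h * g⁻¹ * g = g * h := by group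
      rw [h3] at h1
      have h4 : h = g * h * g⁻¹ := by
        have := mul_left_cancel h1
        exact this
      exact h4
    rw [h2]; exact hh

theorem normalizer_conj_centralizer {Γ : Type} [Group Γ] {P : Subgroup Γ} {u g : Γ}
    (hu : u ∈ Subgroup.normalizer (P : Set Γ)) :
    u * g * u⁻¹ ∈ Subgroup.centralizer (P : Set Γ) ↔ g ∈ Subgroup.centralizer (P : Set Γ) := by
  rw [Subgroup.mem_centralizer_iff, Subgroup.mem_centralizer_iff]
  rw [Subgroup.mem_normalizer_iff] at hu
  constructor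
  · intro h p hp
    have h1 := h _ ((hu p).1 hp)
    have h2 : u * (p * g) * u⁻¹ = u * (g * p) * u⁻¹ := by
      calc u * (p * g) * u⁻¹ = u * p * u⁻¹ * (u * g * u⁻¹) := by group
        _ = _ := by rw [h1]; group
    exact mul_left_cancel (mul_right_cancel h2)
  · intro h p hp
    have h1 := h (u⁻¹ * p * u) ((hu _).2 (by
      have : u * (u⁻¹ * p * u) * u⁻¹ = p := by group
      rw [this]; exact hp))
    calc p * (u * g * u⁻¹) = u * (u⁻¹ * p * u * g) * u⁻¹ := by group
      _ = _ := by rw [h1]; group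

theorem d2 : T_D2 := by
  intro F _ Γ _ _ N U P z hz
  refine ⟨fun g hg => ?_, fun u hu g => ?_⟩
  · rw [coeff_br]
    split_ifs with h
    · by_contra hne
      apply hg
      refine ⟨?_, centralizer_le_normalizer' P h⟩
      by_contra hN
      exact hne (hz.1 g hN)
    · rfl
  · rw [coeff_br, coeff_br]
    rw [hz.2 u hu.1]
    exact if_congr (normalizer_conj_centralizer hu.2) rfl rfl

end AMc
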