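import Pool.Agent.H3.AM.Basic

/-!
# Invariant elements by prime avoidance (module C4 of MP_657073_al)
-/

open scoped Classical ComplexConjugate

namespace AMc

theorem avoid {B F ι : Type} [CommRing B] [Field F] [Fintype ι] (f : ι → B →+* F) (I : Ideal B)
    (h : ∀ i, ∃ b ∈ I, f i b ≠ 0) : ∃ b ∈ I, ∀ i, f i b ≠ 0 := by
  by_contra hcon
  push Not at hcon
  have hsub : ((I : Ideal B) : Set B) ⊆ ⋃ i ∈ ((Finset.univ : Finset ι) : Set ι),
      ((RingHom.ker (f i) : Ideal B) : Set B) := by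
    intro b hb
    obtain ⟨i, hi⟩ := hcon b hb
    refine Set.mem_iUnion₂.2 ⟨i, by simp, ?_⟩
    exact hi
  rcases isEmpty_or_nonempty ι with hι | ⟨⟨i₀⟩⟩
  · obtain ⟨i, _⟩ := hcon 0 I.zero_mem
    exact hι.elim i
  · obtain ⟨i, _, hi⟩ := (Ideal.subset_union_prime i₀ i₀
      (fun i _ _ _ => RingHom.ker_isPrime (f i))).1 hsub
    obtain ⟨b, hb, hb'⟩ := h i
    exact hb' (hi hb)

theorem prod_group {B : Type} [CommRing B] {U : Type} [Group U] [Fintype U] (c : U → B →+* B)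
    (hc : ∀ u v b, c v (c u b) = c (u * v) b) (b : B) (v : U) :
    c v (∏ u, c u b) = ∏ u, c u b := by
  rw [map_prod]
  simp only [hc]
  exact Fintype.prod_equiv (Equiv.mulRight v) _ _ (fun u => rfl)

theorem mk_ringHom {A B : Type} [Semiring A] [Semiring B] (f : A → B)
    (h1 : f 1 = 1) (h0 : f 0 = 0) (ha : ∀ x y, f (x + y) = f x + f y)
    (hm : ∀ x y, f (x * y) = f x * f y) :
    ∃ φ : A →+* B, ∀ x, φ x = f x :=
  ⟨{ toFun := f, map_one' := h1, map_zero' := h0, map_add' := ha, map_mul' := hm }, fun _ => rfl⟩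

theorem exists_cjHom {F : Type} [Field F] {Γ : Type} [Group Γ] [Fintype Γ] (K U : Subgroup Γ)
    (hn : ∀ u ∈ U, ∀ g ∈ K, u * g * u⁻¹ ∈ K) (u : Γ) (hu : u ∈ U) :
    ∃ φ : ZA F K K →+* ZA F K K, ∀ z : ZA F K K, (φ z : MonoidAlgebra F Γ) = cjA u z := by
  obtain ⟨φ, hφ⟩ := mk_ringHom (A := ZA F K K) (B := ZA F K K)
    (fun z => ⟨cjA u z, cjA_mem (nor_iff hn hu) (hn u hu) z.2⟩)
    (by apply Subtype.ext; exact cjA_one u)
    (by
      apply Subtype.ext
      have := cjA_smul (F := F) u 0 (0 : MonoidAlgebra F Γ)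
      rw [zero_smul, zero_smul] at this
      exact this)
    (by intro z w; apply Subtype.ext; exact cjA_add u _ _)
    (by intro z w; apply Subtype.ext; exact cjA_mul u _ _)
  exact ⟨φ, fun z => by rw [hφ]⟩

/-- the ideal of the elements supported on `SD` -/
theorem exists_idealSD (hC2 : T_C2) {F : Type} [Field F] (ℓ : ℕ) [Fact ℓ.Prime] [CharP F ℓ]
    {Γ : Type} [Group Γ] [Fintype Γ] (K : Subgroup Γ) (𝒟 : Set (Subgroup Γ)) :
    ∃ I : Ideal (ZA F K K), ∀ z : ZA F K K, z ∈ I ↔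
      ∀ g, (z : MonoidAlgebra F Γ).coeff g ≠ 0 → g ∈ SD ℓ K 𝒟 := by
  refine ⟨{ carrier := {z | ∀ g, (z : MonoidAlgebra F Γ).coeff g ≠ 0 → g ∈ SD ℓ K 𝒟}
            add_mem' := ?_
            zero_mem' := ?_
            smul_mem' := ?_ }, fun z => Iff.rfl⟩
  · intro z w hz hw g hg
    by_cases h : (z : MonoidAlgebra F Γ).coeff g = 0
    · apply hw
      intro h2
      apply hg
      show ((z : MonoidAlgebra F Γ) + (w : MonoidAlgebra F Γ)).coeff g = 0
      rw [MonoidAlgebra.coeff_add, Finsupp.add_apply, h, h2, add_zero]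
    · exact hz g h
  · intro g hg
    exact absurd rfl hg
  · intro c z hz g hg
    have h1 : ((c • z : ZA F K K) : MonoidAlgebra F Γ) =
        (z : MonoidAlgebra F Γ) * (c : MonoidAlgebra F Γ) := ZA_mul_comm le_rfl c.2 z.2
    rw [h1] at hg
    exact hC2 F ℓ Γ K 𝒟 z z.2 c c.2 hz g hg

theorem c4 (hC2 : T_C2) : T_C4 := by
  intro F _ ℓ _ _ Γ _ _ K U hKU hn 𝒟 h𝒟 h hh z hz hsup hne
  have hex : ∀ u : U, ∃ φ : ZA F K K →+* ZA F K K,
      ∀ z : ZA F K K, (φ z : MonoidAlgebra F Γ) = cjA (u : Γ) z :=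
    fun u => exists_cjHom K U hn u u.2
  choose c hc using hex
  obtain ⟨I, hI⟩ := exists_idealSD hC2 ℓ K 𝒟 (F := F)
  obtain ⟨b, hb, hb'⟩ := avoid (fun u : U => hh.toRingHom.comp (c u)) I (by
    intro u
    refine ⟨c u⁻¹ ⟨z, hz⟩, ?_, ?_⟩
    · rw [hI]
      intro g hg
      rw [hc, coeff_cjA] at hg
      have h1 := hsup _ hg
      have h2 := SD_conj (u := (u : Γ)) (nor_iff hn u.2) (h𝒟 u u.2) h1
      have h3 : (u : Γ) * (((u⁻¹ : U) : Γ) * g * ((u⁻¹ : U) : Γ)⁻¹) * (u : Γ)⁻¹ = g := by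
        push_cast
        group
      rwa [h3] at h2
    · rw [RingHom.comp_apply, CHom.toRingHom_apply, hc, hc, cjA_cjA]
      have h3 : (((u⁻¹ : U) : Γ) * (u : Γ)) = 1 := by
        push_cast
        group
      rw [h3, cjA_one_left]
      exact hne)
  have hcc : ∀ u v b, c v (c u b) = c (u * v) b := by
    intro u v b
    apply Subtype.ext
    rw [hc, hc, hc, cjA_cjA]
    rfl
  have hinv : ∀ v : U, cjA (v : Γ) ((∏ u, c u b : ZA F K K) : MonoidAlgebra F Γ) =
      ((∏ u, c u b : ZA F K K) : MonoidAlgebra F Γ) := by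
    intro v
    rw [← hc, prod_group c hcc b v]
  refine ⟨((∏ u, c u b : ZA F K K) : MonoidAlgebra F Γ), ⟨?_, ?_⟩, ?_, ?_⟩
  · exact (∏ u, c u b : ZA F K K).2.1
  · intro u hu g
    have := congrArg (fun w : MonoidAlgebra F Γ => w.coeff g) (hinv ⟨u, hu⟩)
    exact this
  · rw [← hI]
    rw [← Finset.mul_prod_erase Finset.univ _ (Finset.mem_univ (1 : U))]
    apply Ideal.mul_mem_right
    have : c 1 b = b := by
      apply Subtype.ext
      rw [hc]
      exact cjA_one_left _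
    rw [this]
    exact hb
  · rw [← CHom.toRingHom_apply hh, map_prod]
    exact Finset.prod_ne_zero_iff.2 (fun u _ => hb' u)

end AMc
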