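import Pool.Agent.H3.AM.Basic

/-!
# Brauer's first main theorem, downwards (module D7 of MP_657073_al)
-/

open scoped Classical ComplexConjugate

namespace AMc

/-- extension of homomorphisms to an algebraically closed field along a finite algebra -/
theorem extend_hom {F A B : Type} [Field F] [IsAlgClosed F] [CommRing A] [CommRing B]
    [Algebra F A] [Algebra F B] [Module.Finite F B] (φ : A →ₐ[F] B) (h : A →ₐ[F] F)
    (hker : ∀ a, φ a = 0 → h a = 0) : ∃ k : B →ₐ[F] F, ∀ a, h a = k (φ a) := by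
  let _ : Algebra A B := φ.toRingHom.toAlgebra
  have hmap : ∀ a : A, algebraMap A B a = φ a := fun a => rfl
  have : IsScalarTower F A B := IsScalarTower.of_algebraMap_eq (fun x => by
    rw [hmap]; exact (φ.commutes x).symm)
  have : Algebra.IsIntegral A B := Algebra.IsIntegral.tower_top F
  have : (RingHom.ker h.toRingHom).IsPrime := RingHom.ker_isPrime _
  obtain ⟨Q, _, hQp, hQ⟩ := Ideal.exists_ideal_over_prime_of_isIntegral (S := B)
    (RingHom.ker h.toRingHom) ⊥ (by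
      intro a ha
      rw [Ideal.mem_comap, Ideal.mem_bot, hmap] at ha
      exact hker a ha)
  have : IsDomain (B ⧸ Q) := Ideal.Quotient.isDomain Q
  have hbij := IsAlgClosed.algebraMap_bijective_of_isIntegral (k := F) (K := B ⧸ Q)
  let e : F ≃ₐ[F] (B ⧸ Q) := AlgEquiv.ofBijective (Algebra.ofId F (B ⧸ Q)) hbij
  refine ⟨e.symm.toAlgHom.comp (Ideal.Quotient.mkₐ F Q), fun a => ?_⟩
  have h1 : a - algebraMap F A (h a) ∈ RingHom.ker h.toRingHom := by
    rw [RingHom.mem_ker]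
    show h (a - algebraMap F A (h a)) = 0
    rw [map_sub, AlgHom.commutes]
    exact sub_self _
  rw [← hQ, Ideal.mem_comap, hmap, map_sub, AlgHom.commutes] at h1
  have h2 : Ideal.Quotient.mkₐ F Q (φ a) = Ideal.Quotient.mkₐ F Q (algebraMap F B (h a)) :=
    (Ideal.Quotient.eq).2 h1
  show h a = e.symm (Ideal.Quotient.mkₐ F Q (φ a))
  rw [h2, AlgHom.commutes]
  exact (AlgEquiv.commutes e.symm (h a)).symm

theorem mk_algHom {F A B : Type} [Field F] [Semiring A] [Semiring B] [Algebra F A] [Algebra F B]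
    (f : A → B) (h1 : f 1 = 1) (ha : ∀ x y, f (x + y) = f x + f y)
    (hm : ∀ x y, f (x * y) = f x * f y) (hs : ∀ (c : F) x, f (c • x) = c • f x) :
    ∃ φ : A →ₐ[F] B, ∀ x, φ x = f x :=
  ⟨AlgHom.ofLinearMap { toFun := f, map_add' := ha, map_smul' := hs } h1 hm, fun _ => rfl⟩

/-- the Brauer map as a homomorphism of algebras -/
theorem exists_brHom (hD1 : T_D1) (hD2 : T_D2) (F : Type) [Field F] (ℓ : ℕ) [Fact ℓ.Prime]
    [CharP F ℓ] (Γ : Type) [Group Γ] [Fintype Γ] (N P : Subgroup Γ) (hP : IsPGroup ℓ P)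
    (hPN : P ≤ N) :
    ∃ φ : ZA F N N →ₐ[F] ZA F (N ⊓ Subgroup.normalizer (P : Set Γ))
      (N ⊓ Subgroup.normalizer (P : Set Γ)),
      ∀ z : ZA F N N, (φ z : MonoidAlgebra F Γ) = br P z := by
  have hinv : ∀ z ∈ ZA F N N, z ∈ ZA F ⊤ P := fun z hz => ZA_mono le_top hPN hz
  obtain ⟨φ, hφ⟩ := mk_algHom (F := F) (A := ZA F N N)
    (B := ZA F (N ⊓ Subgroup.normalizer (P : Set Γ)) (N ⊓ Subgroup.normalizer (P : Set Γ)))
    (fun z => ⟨br P z, hD2 F Γ N N P z z.2⟩)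
    (by apply Subtype.ext; exact br_one P)
    (by intro z w; apply Subtype.ext; exact br_add P _ _)
    (by intro z w; apply Subtype.ext; exact hD1 F ℓ Γ P hP z (hinv z z.2) w (hinv w w.2))
    (by intro c w; apply Subtype.ext; exact br_smul P c w)
  exact ⟨φ, fun z => by rw [hφ]⟩

/-- extension by zero of a homomorphism on the centre -/
theorem exists_ext {F : Type} [Field F] {Γ : Type} [Group Γ] [Fintype Γ] (N' : Subgroup Γ)
    (k : ZA F N' N' →ₐ[F] F) : ∃ k' : MonoidAlgebra F Γ → F, CHom N' k' ∧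
      ∀ z (hz : z ∈ ZA F N' N'), k' z = k ⟨z, hz⟩ := by
  refine ⟨fun z => if hz : z ∈ ZA F N' N' then k ⟨z, hz⟩ else 0, ⟨?_, ?_, ?_, ?_⟩, ?_⟩
  · rw [dif_pos (ZA F N' N').one_mem]
    exact map_one k
  · intro z hz w hw
    rw [dif_pos hz, dif_pos hw, dif_pos ((ZA F N' N').add_mem hz hw)]
    exact map_add k ⟨z, hz⟩ ⟨w, hw⟩
  · intro z hz w hw
    rw [dif_pos hz, dif_pos hw, dif_pos ((ZA F N' N').mul_mem hz hw)]
    exact map_mul k ⟨z, hz⟩ ⟨w, hw⟩
  · intro c z hz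
    rw [dif_pos hz, dif_pos ((ZA F N' N').smul_mem hz c)]
    exact map_smul k c ⟨z, hz⟩
  · intro z hz
    exact dif_pos hz

theorem d7 (hD1 : T_D1) (hD2 : T_D2) : T_D7 := by
  intro F _ _ ℓ _ _ Γ _ _ N P h hh hdef
  obtain ⟨hP, hPN, _, hiv⟩ := hdef
  obtain ⟨φ, hφ⟩ := exists_brHom hD1 hD2 F ℓ Γ N P hP hPN
  have hbr : ∀ z ∈ ZA F N N, br P z = 0 → h z = 0 := by
    intro z hz hbr
    by_contra hne
    obtain ⟨x, hxN, hx, hx2⟩ := hh.exists_cls le_rfl le_rfl (nor_self N) hz hne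
    obtain ⟨u, huN, hu⟩ := hiv x hxN hx2
    apply hx
    have hmem : u⁻¹ * x * u ∈ Subgroup.centralizer (P : Set Γ) := by
      rw [Subgroup.mem_centralizer_iff]
      intro p hp
      have h1 := Subgroup.mem_centralizer_singleton_iff.1 (hu p hp)
      calc p * (u⁻¹ * x * u) = u⁻¹ * (u * p * u⁻¹ * x) * u := by group
        _ = _ := by rw [h1]; group
    have h2 : (br P z).coeff (u⁻¹ * x * u) = 0 := by rw [hbr]; rfl
    rw [coeff_br, if_pos hmem] at h2
    have h3 := hz.2 u huN (u⁻¹ * x * u)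
    rw [h2] at h3
    rw [← h3]
    congr 1
    group
  have hker : ∀ z : ZA F N N, φ z = 0 → hh.toAlgHom z = 0 := by
    intro z hz
    refine hbr z z.2 ?_
    rw [← hφ, hz]
    rfl
  obtain ⟨k, hk⟩ := extend_hom φ hh.toAlgHom hker
  have hD2' : ∀ z ∈ ZA F N N, br P z ∈ ZA F (N ⊓ Subgroup.normalizer (P : Set Γ))
    (N ⊓ Subgroup.normalizer (P : Set Γ)) := fun z hz => hD2 F Γ N N P z hz
  have hk' : ∀ z (hz : z ∈ ZA F N N), h z = k ⟨br P z, hD2' z hz⟩ := by
    intro z hz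
    have h1 := hk ⟨z, hz⟩
    have h3 : φ ⟨z, hz⟩ = ⟨br P z, hD2' z hz⟩ := Subtype.ext (hφ ⟨z, hz⟩)
    rw [h3] at h1
    exact h1
  obtain ⟨k', hk1, hk2⟩ := exists_ext _ k
  refine ⟨k', hk1, fun z hz => ?_⟩
  rw [hk' z hz, hk2 _ (hD2' z hz)]

end AMc
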